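import Pool.Agent.Helper18.FM.GoalsB

/-!
# FM, packet FTQ (helper90): flatness and the trace bound for `σ (1 - P)`
-/

set_option autoImplicit false

open Complex Metric Set Filter Topology MeasureTheory
open scoped ContDiff ComplexConjugate ComplexOrder Manifold Matrix

namespace Pool.Agent.Helper90.FM.FTQ

open Pool.Agent.Helper95.Lin Pool.Agent.Helper16.Abund Pool.Agent.Helper92.Orb
  Pool.Agent.Helper10.SP Pool.Agent.Helper95.RK Pool.Agent.Helper57.HS
  Pool.Agent.Helper15.HS Pool.Agent.Helper15.GS Pool.Agent.Helper57.RBC Pool.Agent.Helper82.HB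
open Pool.Agent.Helper10.RBC (dn)
open Pool.Agent.Helper25.HS (TT TT_add3 TT_add4 sum_swap12_34)
open Pool.Agent.Helper18.FM

theorem fac {n : ℕ} {K : Matrix (Fin n) (Fin n) ℂ} (hK : K.PosSemidef) :
    ∃ S : Matrix (Fin n) (Fin n) ℂ, K = Sᴴ * S := by
  open scoped MatrixOrder in
  exact CStarAlgebra.nonneg_iff_eq_star_mul_self.mp hK.nonneg

/-- exchange of two pairs of sums -/
theorem swap22 {n m p q : ℕ} (F : Fin n → Fin m → Fin p → Fin q → ℂ) :
    ∑ i, ∑ j, ∑ k, ∑ l, F i j k l = ∑ k, ∑ l, ∑ i, ∑ j, F i j k l := by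
  calc ∑ i, ∑ j, ∑ k, ∑ l, F i j k l = ∑ i, ∑ k, ∑ j, ∑ l, F i j k l :=
        Finset.sum_congr rfl fun i _ => Finset.sum_comm
    _ = ∑ k, ∑ i, ∑ j, ∑ l, F i j k l := Finset.sum_comm
    _ = ∑ k, ∑ i, ∑ l, ∑ j, F i j k l :=
        Finset.sum_congr rfl fun k _ => Finset.sum_congr rfl fun i _ => Finset.sum_comm
    _ = ∑ k, ∑ l, ∑ i, ∑ j, F i j k l := Finset.sum_congr rfl fun k _ => Finset.sum_comm

variable {n m r : ℕ}

/-- the form with the matrices `N k l` -/
theorem TT_N (N : Fin m → Fin m → Matrix (Fin m) (Fin m) ℂ) (a b u w : Fin m → ℂ) :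
    TT (fun i j k l => - N k l i j) a b u w =
      - ∑ k, ∑ l, (u k * conj (w l)) * ∑ i, ∑ j, a i * N k l i j * conj (b j) := by
  unfold TT
  rw [swap22, ← Finset.sum_neg_distrib]
  refine Finset.sum_congr rfl fun k _ => ?_
  rw [← Finset.sum_neg_distrib]
  refine Finset.sum_congr rfl fun l _ => ?_
  rw [Finset.mul_sum, ← Finset.sum_neg_distrib]
  refine Finset.sum_congr rfl fun i _ => ?_
  rw [Finset.mul_sum, ← Finset.sum_neg_distrib]
  refine Finset.sum_congr rfl fun j _ => ?_
  ring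

theorem tr_gram (M : Matrix (Fin m) (Fin m) ℂ) (B : Matrix (Fin r) (Fin m) ℂ) :
    Matrix.trace (M * (Bᴴ * B)) = ∑ t, ∑ i, ∑ j, B t i * M i j * conj (B t j) := by
  simp only [Matrix.trace, Matrix.diag_apply, Matrix.mul_apply, Matrix.conjTranspose_apply,
    Finset.mul_sum]
  calc ∑ i, ∑ j, ∑ t, M i j * (star (B t j) * B t i)
      = ∑ i, ∑ t, ∑ j, M i j * (star (B t j) * B t i) :=
        Finset.sum_congr rfl fun i _ => Finset.sum_comm
    _ = ∑ t, ∑ i, ∑ j, M i j * (star (B t j) * B t i) := Finset.sum_comm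
    _ = ∑ t, ∑ i, ∑ j, B t i * M i j * conj (B t j) := by
        refine Finset.sum_congr rfl fun t _ => Finset.sum_congr rfl fun i _ =>
          Finset.sum_congr rfl fun j _ => ?_
        change M i j * (conj (B t j) * B t i) = _
        ring

/-- the curvature term as a sum over the rows of two matrices -/
theorem gram2 {r' : ℕ} (N : Fin m → Fin m → Matrix (Fin m) (Fin m) ℂ)
    (B : Matrix (Fin r) (Fin m) ℂ) (B' : Matrix (Fin r') (Fin m) ℂ) :
    ∑ k, ∑ l, (Bᴴ * B) l k * Matrix.trace (N k l * (B'ᴴ * B')) =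
      - ∑ s, ∑ t, TT (fun i j k l => - N k l i j) (B' t) (B' t) (B s) (B s) := by
  have h1 : ∀ k l, (Bᴴ * B) l k * Matrix.trace (N k l * (B'ᴴ * B')) =
      ∑ s, ∑ t, (B s k * conj (B s l)) * ∑ i, ∑ j, B' t i * N k l i j * conj (B' t j) := by
    intro k l
    rw [tr_gram, Matrix.mul_apply, Finset.sum_mul_sum]
    refine Finset.sum_congr rfl fun s _ => Finset.sum_congr rfl fun t _ => ?_
    rw [Matrix.conjTranspose_apply, mul_comm (star (B s l))]
    rfl
  simp only [h1, TT_N, Finset.sum_neg_distrib, neg_neg]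
  rw [swap22]

/-- the curvature term of `σ'` for a curvature which comes from `C` -/
theorem nkk_eq (Cx : Fin m → Fin m → Matrix (Fin m) (Fin m) ℂ) (hx : Matrix (Fin m) (Fin m) ℂ)
    (s s' : Matrix (Fin n) (Fin m) ℂ) (K : Matrix (Fin n) (Fin n) ℂ) :
    ∑ k, ∑ l, K l k * Matrix.trace (s' * ((∑ a, ∑ b, (s k a * conj (s l b)) • Cx a b) * hx) *
      s'ᴴ * K) =
    ∑ a, ∑ b, (sᴴ * K * s) b a * Matrix.trace (Cx a b * hx * (s'ᴴ * K * s')) := by
  have h1 : ∀ M : Matrix (Fin m) (Fin m) ℂ, Matrix.trace (s' * M * s'ᴴ * K) =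
      Matrix.trace (M * (s'ᴴ * K * s')) := by
    intro M
    rw [Matrix.mul_assoc, Matrix.mul_assoc, Matrix.trace_mul_comm, Matrix.mul_assoc,
      Matrix.mul_assoc]
  have h2 : ∀ k l, K l k * Matrix.trace (s' * ((∑ a, ∑ b, (s k a * conj (s l b)) • Cx a b) * hx) *
      s'ᴴ * K) = ∑ a, ∑ b, (conj (s l b) * K l k * s k a) *
        Matrix.trace (Cx a b * hx * (s'ᴴ * K * s')) := by
    intro k l
    rw [h1]
    simp only [Finset.sum_mul, Matrix.smul_mul, Matrix.trace_sum, Matrix.trace_smul, smul_eq_mul,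
      Finset.mul_sum]
    refine Finset.sum_congr rfl fun a _ => Finset.sum_congr rfl fun b _ => ?_
    ring
  have h3 : ∀ a b, (sᴴ * K * s) b a * Matrix.trace (Cx a b * hx * (s'ᴴ * K * s')) =
      ∑ k, ∑ l, (conj (s l b) * K l k * s k a) *
        Matrix.trace (Cx a b * hx * (s'ᴴ * K * s')) := by
    intro a b
    rw [Matrix.mul_apply, Finset.sum_mul]
    refine Finset.sum_congr rfl fun k _ => ?_
    rw [Matrix.mul_apply, Finset.sum_mul, Finset.sum_mul]
    rfl
  simp only [h2, h3]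
  rw [swap22]

theorem TT_conj' {R : Fin m → Fin m → Fin m → Fin m → ℂ}
    (h : ∀ i j k l, conj (R i j k l) = R j i l k) (a b c d : Fin m → ℂ) :
    conj (TT R a b c d) = TT R b a d c := by
  unfold TT
  rw [map_sum]
  simp only [map_sum, map_mul, Complex.conj_conj, h]
  rw [sum_swap12_34]
  refine Finset.sum_congr rfl fun i _ => Finset.sum_congr rfl fun j _ =>
    Finset.sum_congr rfl fun k _ => Finset.sum_congr rfl fun l _ => ?_
  ring

theorem t : Pool.Agent.Helper18.FM.S_FTQ := by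
  intro n m T σ h χ Γ C P hpd hCF hPP hPh hR hB
  have hZ : ∀ x ∈ T, ∀ u ∈ Sx σ P x, ∀ w ∈ Sx σ P x, ∀ a b : Fin m → ℂ,
      TT (RC h C x) u b (a ᵥ* P x) w = 0 := by
    intro x hx u hu w hw a b
    obtain ⟨-, h2, h3⟩ := hR x hx u hu w hw a b
    rw [← h2, h3]
  have hrow : ∀ x (S : Fin n → ℂ), S ᵥ* σ x ∈ Sx σ P x := by
    intro x S
    have e : S ᵥ* σ x = ∑ i, S i • σ x i := by
      funext a
      simp [Matrix.vecMul, dotProduct]
    rw [e]
    exact Submodule.sum_mem _ fun i _ => Submodule.smul_mem _ _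
      (Submodule.subset_span (Or.inl ⟨i, rfl⟩))
  have hrowP : ∀ x (v : Fin m → ℂ), v ᵥ* P x ∈ Sx σ P x := by
    intro x v
    have e : v ᵥ* P x = ∑ i, v i • P x i := by
      funext a
      simp [Matrix.vecMul, dotProduct]
    rw [e]
    exact Submodule.sum_mem _ fun i _ => Submodule.smul_mem _ _
      (Submodule.subset_span (Or.inr ⟨i, rfl⟩))
  constructor
  · intro x hx k l
    have hM : P x * (RE h k l x * h x) = 0 := by
      ext i j
      have h1 := (hR x hx (σ x k) (by
        have := hrow x (Pi.single k 1)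
        rwa [Matrix.single_one_vecMul] at this) (σ x l) (by
        have := hrow x (Pi.single l 1)
        rwa [Matrix.single_one_vecMul] at this) (Pi.single i 1) (Pi.single j 1)).2.2
      rw [Matrix.single_one_vecMul] at h1
      have h2 : TT (RC h C x) (P x i) (Pi.single j 1) (σ x k) (σ x l) =
          TT (fun i j k l => - (C k l x * h x) i j) (P x i) (Pi.single j 1) (σ x k) (σ x l) := rfl
      have h1' : TT (RC h C x) (P x i) (Pi.single j 1) (σ x k) (σ x l) = 0 := h1
      rw [h2, TT_N (fun k l => C k l x * h x), neg_eq_zero] at h1'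
      rw [hCF.cur x hx]
      simp only [Finset.sum_mul, Matrix.smul_mul, Matrix.mul_sum, Matrix.mul_smul,
        Matrix.sum_apply, Matrix.smul_apply, smul_eq_mul, Matrix.zero_apply]
      rw [← h1']
      refine Finset.sum_congr rfl fun a _ => Finset.sum_congr rfl fun b _ => ?_
      congr 1
      rw [Matrix.mul_apply]
      refine Finset.sum_congr rfl fun p _ => ?_
      rw [Finset.sum_eq_single j]
      · simp
      · intro q _ hq
        simp [Pi.single_eq_of_ne hq]
      · intro hq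
        exact absurd (Finset.mem_univ j) hq
    have hu : IsUnit (h x).det := (Matrix.isUnit_iff_isUnit_det _).mp (hpd x hx).isUnit
    calc P x * RE h k l x = P x * (RE h k l x * h x) * (h x)⁻¹ := by
          rw [Matrix.mul_assoc, Matrix.mul_assoc, Matrix.mul_nonsing_inv _ hu, Matrix.mul_one]
      _ = 0 := by rw [hM, Matrix.zero_mul]
  · intro x hx K hK
    have hBx := hB x hx K hK
    suffices hs : NKK (fun x => σ x * (1 - P x)) h K x =
        CRV h C ((σ x * (1 - P x))ᴴ * K * (σ x * (1 - P x))) x by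
      rw [hs]
      exact hBx
    obtain ⟨S, hS⟩ := fac hK
    have hconj : ∀ i j k l, conj (RC h C x i j k l) = RC h C x j i l k := by
      intro i j k l
      have h1 := congrFun (congrFun (hCF.her x hx k l) j) i
      rw [Matrix.conjTranspose_apply] at h1
      unfold RC
      rw [map_neg, ← h1]
      rfl
    unfold NKK CRV
    congr 1
    have e1 : ∀ k l, RE h k l x = ∑ a, ∑ b, (σ x k a * conj (σ x l b)) • C a b x :=
      fun k l => hCF.cur x hx k l
    simp only [e1]
    rw [nkk_eq (fun a b => C a b x) (h x) (σ x) (σ x * (1 - P x)) K]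
    have e2 : (σ x)ᴴ * K * σ x = (S * σ x)ᴴ * (S * σ x) := by
      rw [hS, Matrix.conjTranspose_mul]
      simp only [Matrix.mul_assoc]
    have e3 : (σ x * (1 - P x))ᴴ * K * (σ x * (1 - P x)) =
        (S * σ x * (1 - P x))ᴴ * (S * σ x * (1 - P x)) := by
      rw [hS, Matrix.conjTranspose_mul, Matrix.conjTranspose_mul (S * σ x),
        Matrix.conjTranspose_mul S]
      simp only [Matrix.mul_assoc]
    rw [e2, e3, gram2 (fun a b => C a b x * h x), gram2 (fun a b => C a b x * h x)]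
    congr 1
    refine Finset.sum_congr rfl fun s _ => Finset.sum_congr rfl fun t _ => ?_
    change TT (RC h C x) _ _ _ _ = TT (RC h C x) _ _ _ _
    obtain ⟨B, hBe⟩ : ∃ B : Matrix (Fin n) (Fin m) ℂ, B = S * σ x := ⟨_, rfl⟩
    obtain ⟨B', hBe'⟩ : ∃ B' : Matrix (Fin n) (Fin m) ℂ, B' = B * (1 - P x) := ⟨_, rfl⟩
    rw [← hBe, ← hBe']
    have hBs : ∀ s, B s ∈ Sx σ P x := fun s => by
      rw [hBe]
      exact hrow x (S s)
    have hdec : ∀ s, B s = B' s + B s ᵥ* P x := by
      intro s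
      funext a
      rw [hBe', Matrix.mul_sub, Matrix.mul_one, Pi.add_apply, Matrix.sub_apply]
      change _ = B s a - (B * P x) s a + (B * P x) s a
      ring
    have hB's : ∀ s, B' s ∈ Sx σ P x := by
      intro s
      have h1 : B' s = B s - B s ᵥ* P x := by
        rw [eq_sub_iff_add_eq]
        exact (hdec s).symm
      rw [h1]
      exact Submodule.sub_mem _ (hBs s) (hrowP x _)
    have z1 := hZ x hx _ (hB's t) _ (hB's s) (B s) (B' t)
    have z2 := hZ x hx _ (hB's t) _ (hrowP x (B s)) (B s) (B' t)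
    have z3 : TT (RC h C x) (B' t) (B' t) (B' s) (B s ᵥ* P x) = 0 := by
      have h1 := TT_conj' hconj (B' t) (B' t) (B s ᵥ* P x) (B' s)
      rw [z1, map_zero] at h1
      exact h1.symm
    have e4 : TT (RC h C x) (B' t) (B' t) (B s) (B s) =
        TT (RC h C x) (B' t) (B' t) (B' s + B s ᵥ* P x) (B' s + B s ᵥ* P x) := by
      rw [← hdec s]
    rw [e4, TT_add3, TT_add4, TT_add4, z1, z2, z3, add_zero, add_zero, add_zero]

end Pool.Agent.Helper90.FM.FTQ
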